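import Pool.Agent.Quad.Assemble

set_option autoImplicit false

/-!
# Both signs of the Liouville function along every irreducible quadratic and every progression
-/

namespace Pool.Agent.Results.MP_d639b3_nt.AllQuadratics

/-- Let `A ≠ 0`, `B`, `C` be integers such that `B ^ 2 - 4 A C` is not a square (that is,
`A T ^ 2 + B T + C` is irreducible over `ℚ`), let `N ≥ 1` and `r` be integers, and let `e` be one
of the signs `1`, `-1`. Then there are arbitrarily large `X` such that at least `X ^ (1/5)` of the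
integers `0 ≤ n ≤ X` satisfy `n ≡ r (mod N)` and `λ(A n ^ 2 + B n + C) = e`. -/
theorem result (A B C : ℤ) (hA : A ≠ 0) (hD : ¬ IsSquare (B ^ 2 - 4 * A * C)) (N r : ℕ)
    (hN : 0 < N) (e : ℤ) (he : e = 1 ∨ e = -1) (X0 : ℕ) :
    ∃ X : ℕ, X0 ≤ X ∧ (X : ℝ) ^ (1 / 5 : ℝ) ≤
      (((Finset.range (X + 1)).filter (fun n : ℕ => n ≡ r [MOD N] ∧
        ArithmeticFunction.liouville (A * (n : ℤ) ^ 2 + B * n + C).natAbs = e)).card : ℝ) :=
  Pool.Agent.Quad.p_final _ Pool.Agent.Quad.isSign_liouville' Pool.Agent.Quad.manyQ_liouville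
    A B C hA hD N r hN e he X0

end Pool.Agent.Results.MP_d639b3_nt.AllQuadratics
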