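import Mathlib
import Pool.Agent.FCH.FinL

set_option autoImplicit false

/-!
# Cancellation of `λ(T² + 1)` in every arithmetic progression at almost all scales, with the weight
# `number of balanced factorisations`
-/

open Finset

namespace Pool.Agent.Results.MP_d639b3_nt.CancellationAlmostAllScales

/-- `A(m)`: the integers `v ≡ a₀ (mod N)` with `|v| ≤ m`. -/
noncomputable def Prog (a₀ : ℤ) (N m : ℕ) : Finset ℤ :=
  (Icc (-(m : ℤ)) m).filter (fun v => (N : ℤ) ∣ v - a₀)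

/-- `w_m(v)`: the number of pairs `(d, e)` of integers in `(m / b, m]` with `d e = v² + 1`. -/
noncomputable def w (b : ℝ) (m : ℕ) (v : ℤ) : ℕ :=
  open Classical in
  ((Icc 1 m ×ˢ Icc 1 m).filter (fun d : ℕ × ℕ => (m : ℝ) / b < d.1 ∧ (m : ℝ) / b < d.2 ∧
    (d.1 : ℤ) * d.2 = v ^ 2 + 1)).card

/-- Liouville's function at `|n|`. -/
def lam (n : ℤ) : ℝ := (-1) ^ (ArithmeticFunction.cardFactors n.natAbs)

/-- For every progression and every `b > 1`: the weights have `∑_{v ∈ A(m)} w_m(v) ≥ c m` for all `m ≥ m₀`, and for every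
`ε > 0` and all `X ≥ X₀` the `m ≤ X` with `|∑_{v ∈ A(m)} w_m(v) λ(v² + 1)| > ε ∑_{v ∈ A(m)} w_m(v)` have
`∑ 1/m ≤ ε log X`. -/
theorem result (N : ℕ) (hN : 1 ≤ N) (a₀ : ℤ) (b : ℝ) (hb : 1 < b) :
    (∃ c : ℝ, 0 < c ∧ ∃ m₀ : ℕ, ∀ m : ℕ, m₀ ≤ m → c * m ≤ ∑ v ∈ Prog a₀ N m, (w b m v : ℝ)) ∧
    (∀ ε : ℝ, 0 < ε → ∃ X₀ : ℕ, ∀ X : ℕ, X₀ ≤ X → open Classical in
      ∑ m ∈ (Icc 1 X).filter (fun m => ε * ∑ v ∈ Prog a₀ N m, (w b m v : ℝ) <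
        |∑ v ∈ Prog a₀ N m, (w b m v : ℝ) * lam (v ^ 2 + 1)|), 1 / (m : ℝ) ≤ ε * Real.log X) :=
  Pool.Agent.FCH.fin_liou N hN a₀ b hb

end Pool.Agent.Results.MP_d639b3_nt.CancellationAlmostAllScales
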