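import Mathlib
import Pool.Agent.LogPar.Asm
import Pool.Agent.LogPar.KitD
import Pool.Agent.LogPar.KitR
import Pool.Agent.FareyParity.Exists
import Pool.Agent.RealQuad.Exists

set_option autoImplicit false

/-!
# Both signs of the Liouville function at monic quadratic polynomials: a log power loss only
-/

namespace Pool.Agent.Results.MP_d639b3_nt.LogPowerQuadratics

open Pool.Agent.FareyParity Pool.Agent.LogPar

theorem of_kit {B C : ℤ} (k : Kit B C) (v : ℤ × ℤ) (hv : k.Adm v)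
    (hc : ArithmeticFunction.liouville (nf B C v).natAbs = -1) :
    ∃ A X₀ : ℕ, ∀ X : ℕ, X₀ ≤ X → ∀ e : ℤ, e = 1 ∨ e = -1 →
      (X : ℝ) / Real.log X ^ A ≤
        (((Finset.Icc (-(X : ℤ)) X).filter
          fun n => ArithmeticFunction.liouville (n ^ 2 + B * n + C).natAbs = e).card : ℝ) := by
  obtain ⟨A, X0, h⟩ := main_kit k
  have hn : (nf B C v) ≠ 0 := k.adm_ne v hv
  obtain ⟨P, hP⟩ : ∃ P : ℝ, P = |(nf B C v : ℝ)| := ⟨_, rfl⟩
  have hP1 : 1 ≤ P := by
    have : (1 : ℤ) ≤ |nf B C v| := Int.one_le_abs hn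
    rw [hP]; exact_mod_cast this
  obtain ⟨Z, hZ⟩ : ∃ Z : ℝ, Z = max (max X0 (P ^ A)) (Real.exp P) := ⟨_, rfl⟩
  refine ⟨2 * A, ⌈Z⌉₊, ?_⟩
  intro X hX e he
  have hXZ : Z ≤ X := (Nat.le_ceil Z).trans (by exact_mod_cast hX)
  have h1 : X0 ≤ X := by
    refine le_trans ?_ hXZ
    rw [hZ]; exact (le_max_left _ _).trans (le_max_left _ _)
  have h2 : P ^ A ≤ X := by
    refine le_trans ?_ hXZ
    rw [hZ]; exact (le_max_right _ _).trans (le_max_left _ _)
  have h3 : Real.exp P ≤ X := by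
    refine le_trans ?_ hXZ
    rw [hZ]; exact le_max_right _ _
  have hX0 : (0 : ℝ) < X := (Real.exp_pos P).trans_le h3
  have hlog : P ≤ Real.log X := (Real.le_log_iff_exp_le hX0).2 h3
  have hlog0 : 0 < Real.log X := by linarith
  have main := h X h1 _ isSign_liouville v hv hc P hP1 hP.ge h2 e he
  obtain ⟨T, hT⟩ : ∃ T : ℝ, T = (((Finset.Icc (-(X : ℤ)) X).filter
      fun n => ArithmeticFunction.liouville (n ^ 2 + B * n + C).natAbs = e).card : ℝ) := ⟨_, rfl⟩
  have hT' : (((Finset.Icc (-(X : ℤ)) X).filter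
      fun n => ArithmeticFunction.liouville (val B C n) = e).card : ℝ) = T := by
    rw [hT]; rfl
  rw [hT'] at main
  rw [← hT]
  have hT0 : 0 ≤ T := by rw [hT]; positivity
  rw [div_le_iff₀ (by positivity)]
  calc (X : ℝ) ≤ (P * Real.log X) ^ A * T := main
    _ ≤ (Real.log X * Real.log X) ^ A * T := by gcongr
    _ = T * Real.log X ^ (2 * A) := by rw [pow_mul, sq]; ring

/-- Let `F(T) = T^2 + B T + C` be a monic quadratic polynomial with integer coefficients whose
discriminant is not a square (that is, `F` is irreducible). There are `A` and `X₀` such that for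
all `X ≥ X₀` each of the equations `λ(F(n)) = 1` and `λ(F(n)) = -1` holds for at least
`X / (log X)^A` of the integers `n` with `|n| ≤ X`. -/
theorem result (B C : ℤ) (hD : ¬ IsSquare (B ^ 2 - 4 * C)) :
    ∃ A X₀ : ℕ, ∀ X : ℕ, X₀ ≤ X → ∀ e : ℤ, e = 1 ∨ e = -1 →
      (X : ℝ) / Real.log X ^ A ≤
        (((Finset.Icc (-(X : ℤ)) X).filter
          fun n => ArithmeticFunction.liouville (n ^ 2 + B * n + C).natAbs = e).card : ℝ) := by
  rcases lt_or_ge (B ^ 2) (4 * C) with h | h
  · obtain ⟨n, hn⟩ := exists_liouville h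
    apply of_kit (kitD h) (n, 1)
    · show ((n, 1) : ℤ × ℤ) ≠ 0
      simp
    · rw [← hn]
      congr 2
      simp only [nf]; ring
  · have hpos : 0 < B ^ 2 - 4 * C := by
      rcases (show 0 ≤ B ^ 2 - 4 * C by linarith).lt_or_eq with h1 | h1
      · exact h1
      · exfalso; apply hD; rw [← h1]; exact IsSquare.zero
    have hD' : RealQuad.Disc B C := ⟨hpos, hD⟩
    obtain ⟨γ, hγ, hγc⟩ := RealQuad.exists_liouville hD'
    exact of_kit (kitR hD') γ hγ hγc

end Pool.Agent.Results.MP_d639b3_nt.LogPowerQuadratics
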