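import Pool.Agent.Quad.Assemble
import Pool.Agent.MertensAP.Main
import Pool.Agent.CQG.Finb

set_option autoImplicit false

/-!
# Liouville's function at products `Q P` of two variables, `Q` an irreducible quadratic form
-/

namespace Pool.Agent.Results.MP_d639b3_nt.QuadraticTimesSymmetric

/-- The value at `x` of the binary quadratic form with the coefficients `a`, `b`, `c`. -/
def quad (a b c : ℤ) (x : Fin 2 → ℤ) : ℤ := a * x 0 ^ 2 + b * x 0 * x 1 + c * x 1 ^ 2

/-- The max norm of an integral point. -/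
noncomputable def nrm (w : ℤ × ℤ) : ℝ := ((max |w.1| |w.2| : ℤ) : ℝ)

open Classical in
/-- The integral points `w = (u, v)` with `u ≡ r`, `v ≡ s` modulo `N` and `X ≤ |w| ≤ Y`. -/
noncomputable def points (N : ℕ) (r s : ℤ) (X Y : ℝ) : Finset (ℤ × ℤ) :=
  ((Finset.Icc (-(⌊Y⌋₊ : ℤ)) (⌊Y⌋₊ : ℤ)) ×ˢ (Finset.Icc (-(⌊Y⌋₊ : ℤ)) (⌊Y⌋₊ : ℤ))).filter
    (fun w => w.1 ≡ r [ZMOD N] ∧ w.2 ≡ s [ZMOD N] ∧ X ≤ nrm w)

theorem allQ : Pool.Agent.CQF.AllQ := by
  intro A B C hA hD N r hN e he X0
  obtain ⟨X, hX, h⟩ := Pool.Agent.Quad.p_final _ Pool.Agent.Quad.isSign_liouville'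
    Pool.Agent.Quad.manyQ_liouville A B C hA hD N r hN e he ((X0 + 2) ^ 5)
  -- more than `X0` elements in the set, so one of them is at least `X0`
  by_contra hcon
  push Not at hcon
  set S := (Finset.range (X + 1)).filter (fun n : ℕ => n ≡ r [MOD N] ∧
        ArithmeticFunction.liouville (A * (n : ℤ) ^ 2 + B * n + C).natAbs = e) with hS
  have hsub : S ⊆ Finset.range X0 := by
    intro n hn
    rw [hS, Finset.mem_filter] at hn
    rw [Finset.mem_range]
    by_contra hlt
    push Not at hlt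
    exact hcon n hlt hn.2.1 hn.2.2
  have hc : (S.card : ℝ) ≤ X0 := by
    have := Finset.card_le_card hsub
    rw [Finset.card_range] at this
    exact_mod_cast this
  have h5 : ((X0 : ℝ) + 2) ≤ (X : ℝ) ^ (1 / 5 : ℝ) := by
    have h6 : (((X0 : ℝ) + 2) ^ (5 : ℕ)) ≤ (X : ℝ) := by exact_mod_cast hX
    have h7 : ((X0 : ℝ) + 2) = (((X0 : ℝ) + 2) ^ (5 : ℕ)) ^ (1 / 5 : ℝ) := by
      rw [← Real.rpow_natCast, ← Real.rpow_mul (by positivity)]
      norm_num
    rw [h7]
    exact Real.rpow_le_rpow (by positivity) h6 (by norm_num)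
  have := le_trans h5 (le_trans h hc)
  linarith

theorem mertAP : Pool.Agent.CQF.MertAP := fun q hq =>
  Pool.Agent.MertensAP.mertens_ap_mod q hq

/-- Let `Q = a U^2 + b U V + c V^2` be an integral binary quadratic form whose discriminant is not a
square (irreducible over `ℚ`), let `N ≥ 1`, `r`, `s` be integers, and let `P` be a nonzero integral
polynomial in two variables which is
* either a quadratic form of the same kind, not proportional to `Q`,
* or has a symmetry which `Q` does not have and which fixes the class of `(r, s)`: there are an integral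
  matrix `S` of nonzero determinant and an integer `κ ≠ 0` with `P(S x) = κ P(x)` for all `x`, such that
  `Q(S x)` is not proportional to `Q(x)` and `S (r, s) ≡ (r, s)` modulo `N`.

Then there are `c0 > 0`, `C` and `X0` such that for all real `X ≥ X0`, with sums over all integral
points `w ≡ (r, s)` modulo `N` with `X ≤ |w| ≤ X (log X)^C`: the absolute value of the sum of
`λ(Q(w) P(w)) / |w|^2` is at most `1 - c0 / (log log X)^2` times the sum of `1 / |w|^2`. -/
theorem result (a b c : ℤ) (hQ : ¬ IsSquare (b ^ 2 - 4 * a * c)) (N : ℕ) (hN : 1 ≤ N) (r s : ℤ)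
    (P : MvPolynomial (Fin 2) ℤ) (hP : P ≠ 0)
    (hS :
      (∃ a' b' c' : ℤ, ¬ IsSquare (b' ^ 2 - 4 * a' * c') ∧
        ¬ (a * b' = a' * b ∧ a * c' = a' * c ∧ b * c' = b' * c) ∧
        ∀ x : Fin 2 → ℤ, MvPolynomial.eval x P = quad a' b' c' x) ∨
      (∃ (S : Matrix (Fin 2) (Fin 2) ℤ) (κ : ℤ), S.det ≠ 0 ∧ κ ≠ 0 ∧
        (∀ x : Fin 2 → ℤ, MvPolynomial.eval (S.mulVec x) P = κ * MvPolynomial.eval x P) ∧
        (¬ ∃ t : ℚ, ∀ x : Fin 2 → ℤ, (quad a b c (S.mulVec x) : ℚ) = t * quad a b c x) ∧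
        S.mulVec ![r, s] 0 ≡ r [ZMOD N] ∧ S.mulVec ![r, s] 1 ≡ s [ZMOD N])) :
    ∃ c0 : ℝ, 0 < c0 ∧ ∃ (C : ℕ) (X0 : ℝ), ∀ X : ℝ, X0 ≤ X →
      |∑ w ∈ points N r s X (X * (Real.log X) ^ C),
          (ArithmeticFunction.liouville
            (quad a b c ![w.1, w.2] * MvPolynomial.eval ![w.1, w.2] P).natAbs : ℝ) / nrm w ^ 2| ≤
        (1 - c0 / (Real.log (Real.log X)) ^ 2) *
          ∑ w ∈ points N r s X (X * (Real.log X) ^ C), 1 / nrm w ^ 2 := by
  have hcof : Pool.Agent.CQG.Cof a b c P N r s := by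
    rcases hS with ⟨a', b', c', h1, h2, h3⟩ | ⟨S, κ, h1, h2, h3, h4, h5, h6⟩
    · exact Or.inl ⟨a', b', c', h1, h2, h3⟩
    · refine Or.inr ⟨S.transpose, κ, ?_, h2, ?_, ?_, ?_, ?_⟩
      · rw [Matrix.det_transpose]
        exact h1
      · intro v
        rw [Matrix.vecMul_transpose]
        exact h3 v
      · rintro ⟨t, ht⟩
        refine h4 ⟨t, fun x => ?_⟩
        have := ht x
        rw [Matrix.vecMul_transpose] at this
        exact this
      · have := (Int.modEq_iff_dvd.1 h5.symm)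
        have e : S.mulVec ![r, s] 0 = r * S.transpose 0 0 + s * S.transpose 1 0 := by
          simp [Matrix.mulVec, dotProduct, Fin.sum_univ_two, Matrix.transpose_apply]
          ring
        rw [← e]
        exact this
      · have := (Int.modEq_iff_dvd.1 h6.symm)
        have e : S.mulVec ![r, s] 1 = r * S.transpose 0 1 + s * S.transpose 1 1 := by
          simp [Matrix.mulVec, dotProduct, Fin.sum_univ_two, Matrix.transpose_apply]
          ring
        rw [← e]
        exact this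
  obtain ⟨c0, hc0, C, X0, h⟩ := Pool.Agent.CQG.final_sum allQ mertAP hQ P hP N hN r s hcof
  refine ⟨c0, hc0, C, X0, fun X hX => ?_⟩
  have hp : ∀ Y : ℝ, points N r s X Y = Pool.Agent.CQG.win N r s X Y := by
    intro Y
    ext w
    simp only [points, Pool.Agent.CQG.win, nrm, Finset.mem_filter]
    rw [Int.modEq_comm, Int.modEq_iff_dvd, Int.modEq_comm (a := w.2), Int.modEq_iff_dvd]
  rw [hp]
  exact h X hX

end Pool.Agent.Results.MP_d639b3_nt.QuadraticTimesSymmetric
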